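import Mathlib

/-!
Windows of triangular matrices, and first derivatives of the values of noncommutative polynomials.
-/

set_option autoImplicit false

namespace Pool.Agent.R176.NC

open Matrix

variable {K : Type*} [Field K] {σ : Type*}

/-- The restriction of triangular matrices to an interval is multiplicative. -/
theorem window {κ : Type*} [Fintype κ] [DecidableEq κ] (r : κ → ℕ) (hr : Function.Injective r)
    {m : ℕ} (a : ℕ) (e : Fin m → κ) (he : ∀ k, r (e k) = a + k) (M : σ → Matrix κ κ K)
    (hM : ∀ i k l, r l < r k → M i k l = 0) (f : FreeAlgebra K σ) :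
    (∀ k l, r l < r k → FreeAlgebra.lift K M f k l = 0) ∧
    (FreeAlgebra.lift K M f).submatrix e e =
      FreeAlgebra.lift K (fun i => (M i).submatrix e e) f := by
  have hei : Function.Injective e := by
    intro k l h
    have h1 := he k
    rw [h, he l] at h1
    exact Fin.ext (by omega)
  induction f using FreeAlgebra.induction with
  | grade0 c =>
    rw [AlgHom.commutes, AlgHom.commutes]
    refine ⟨fun k l h => ?_, ?_⟩
    · rw [Matrix.algebraMap_matrix_apply, if_neg]
      rintro rfl
      exact lt_irrefl _ h
    · ext k l
      rw [submatrix_apply, algebraMap_matrix_apply, algebraMap_matrix_apply]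
      simp only [hei.eq_iff]
  | grade1 i =>
    simp only [FreeAlgebra.lift_ι_apply]
    exact ⟨hM i, trivial⟩
  | mul f g hf hg =>
    rw [map_mul, map_mul, ← hf.2, ← hg.2]
    set P := FreeAlgebra.lift K M f
    set Q := FreeAlgebra.lift K M g
    refine ⟨fun k l h => ?_, ?_⟩
    · rw [mul_apply]
      refine Finset.sum_eq_zero fun j _ => ?_
      rcases lt_or_ge (r j) (r k) with h1 | h1
      · rw [hf.1 _ _ h1, zero_mul]
      · rw [hg.1 _ _ (lt_of_lt_of_le h h1), mul_zero]
    · ext k l
      rw [submatrix_apply, mul_apply, mul_apply]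
      simp only [submatrix_apply]
      symm
      refine Finset.sum_of_injOn e (hei.injOn) (fun _ _ => by simp) (fun j _ hj => ?_)
        (fun _ _ => rfl)
      rcases lt_or_ge (r j) a with h1 | h1
      · rw [hf.1 _ _ (by rw [he]; omega), zero_mul]
      · rw [hg.1 _ _ ?_, mul_zero]
        rw [he]
        by_contra h2
        apply hj
        have h3 : r j - a < m := by have := l.2; omega
        exact ⟨⟨r j - a, h3⟩, by simp, hr (by rw [he]; simp only; omega)⟩
  | add f g hf hg =>
    rw [map_add, map_add, ← hf.2, ← hg.2]
    refine ⟨fun k l h => ?_, rfl⟩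
    rw [Matrix.add_apply, hf.1 _ _ h, hg.1 _ _ h, add_zero]

open Polynomial in
/-- The line through `B` in the direction `C`. -/
noncomputable def line {n : ℕ} (B C : σ → Matrix (Fin n) (Fin n) K) (i : σ) :
    Matrix (Fin n) (Fin n) K[X] :=
  (B i).map Polynomial.C + (Polynomial.X : K[X]) • (C i).map Polynomial.C

theorem eval_line {n : ℕ} (B C : σ → Matrix (Fin n) (Fin n) K) (f : FreeAlgebra K σ) (t : K) :
    (FreeAlgebra.lift K (line B C) f).map (Polynomial.eval t) =
      FreeAlgebra.lift K (fun i => B i + t • C i) f := by
  have h : ((Polynomial.aeval t : Polynomial K →ₐ[K] K).mapMatrix (m := Fin n)).comp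
      (FreeAlgebra.lift K (line B C)) = FreeAlgebra.lift K (fun i => B i + t • C i) := by
    apply FreeAlgebra.hom_ext
    funext i
    ext a b
    simp [line]
    exact mul_comm _ _
  rw [← h]
  ext a b
  change Polynomial.eval t _ = Polynomial.aeval t (FreeAlgebra.lift K (line B C) f a b)
  rw [Polynomial.coe_aeval_eq_eval]

theorem dual {n : ℕ} (B C : σ → Matrix (Fin n) (Fin n) K) (f : FreeAlgebra K σ) :
    FreeAlgebra.lift K (fun i => Matrix.fromBlocks (B i) (C i) 0 (B i)) f =
      Matrix.fromBlocks ((FreeAlgebra.lift K (line B C) f).map (fun p => p.coeff 0))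
        ((FreeAlgebra.lift K (line B C) f).map (fun p => p.coeff 1)) 0
        ((FreeAlgebra.lift K (line B C) f).map (fun p => p.coeff 0)) := by
  induction f using FreeAlgebra.induction with
  | grade0 c =>
    rw [AlgHom.commutes, AlgHom.commutes]
    ext a b
    by_cases h : a = b
    · subst h
      rcases a with a | a <;> simp [Matrix.algebraMap_matrix_apply]
    · rcases a with a | a <;> rcases b with b | b <;>
        (try simp only [Sum.inl.injEq, Sum.inr.injEq] at h) <;>
        simp [Matrix.algebraMap_matrix_apply, h]
      split_ifs <;> simp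
  | grade1 i =>
    simp only [FreeAlgebra.lift_ι_apply]
    ext a b
    rcases a with a | a <;> rcases b with b | b <;> simp [line, Polynomial.coeff_C]
  | mul f g hf hg =>
    rw [map_mul, map_mul, hf, hg, Matrix.fromBlocks_multiply]
    set F := FreeAlgebra.lift K (line B C) f
    set G := FreeAlgebra.lift K (line B C) g
    have h0 : (F * G).map (fun p => p.coeff 0) = F.map (fun p => p.coeff 0) *
        G.map (fun p => p.coeff 0) := by
      ext a b
      simp [Matrix.mul_apply, Polynomial.mul_coeff_zero]
    have h1 : (F * G).map (fun p => p.coeff 1) = F.map (fun p => p.coeff 0) *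
        G.map (fun p => p.coeff 1) + F.map (fun p => p.coeff 1) * G.map (fun p => p.coeff 0) := by
      ext a b
      simp [Matrix.mul_apply, Polynomial.mul_coeff_one, Finset.sum_add_distrib]
    rw [h0, h1]
    simp
  | add f g hf hg =>
    rw [map_add, map_add, hf, hg, Matrix.fromBlocks_add]
    congr 1
    simp

end Pool.Agent.R176.NC
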