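import Mathlib
import Pool.Agent.R176.NC.Win

/-!
The derivative at triangular matrices of a polynomial which vanishes on the triangular matrices
and whose values have characteristic polynomial `X ^ n - c`.
-/

set_option autoImplicit false

namespace Pool.Agent.R176.NC

open Matrix

variable {K : Type*} [Field K] {σ : Type*}

theorem eval_det_map {n : ℕ} (M : Matrix (Fin n) (Fin n) (Polynomial K)) (t : K) :
    Polynomial.eval t M.det = (M.map (Polynomial.eval t)).det := by
  have h := (Polynomial.evalRingHom t).map_det M
  rw [Polynomial.coe_evalRingHom] at h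
  rw [h]
  rfl

theorem diag_prod [Infinite K] {n : ℕ} (hn : Odd n) (f : FreeAlgebra K σ)
    (hup : ∀ X : σ → Matrix (Fin n) (Fin n) K, (∀ i a b, b < a → X i a b = 0) →
      FreeAlgebra.lift K X f = 0)
    (hch : ∀ X : σ → Matrix (Fin n) (Fin n) K,
      ∃ c : K, (FreeAlgebra.lift K X f).charpoly = Polynomial.X ^ n - Polynomial.C c)
    (B C : σ → Matrix (Fin n) (Fin n) K) (hB : ∀ i a b, b < a → B i a b = 0)
    (ψ : Fin n → K)
    (hψ : ∀ a, ψ a = FreeAlgebra.lift K (fun i => fromBlocks (B i) (C i) 0 (B i)) f
      (Sum.inl a) (Sum.inr a)) :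
    ∏ a, (Polynomial.X - Polynomial.C (ψ a)) = Polynomial.X ^ n - Polynomial.C (∏ a, ψ a) := by
  classical
  set F := FreeAlgebra.lift K (line B C) f with hF
  have hev : ∀ t : K, F.map (Polynomial.eval t) =
      FreeAlgebra.lift K (fun i => B i + t • C i) f := eval_line B C f
  have hF0 : ∀ a b, (F a b).coeff 0 = 0 := by
    intro a b
    have h1 := congrFun (congrFun (hev 0) a) b
    rw [hup _ (fun i a b h => by simp [hB i a b h])] at h1
    rw [Polynomial.coeff_zero_eq_eval_zero]
    exact h1
  set H : Matrix (Fin n) (Fin n) (Polynomial K) := F.map Polynomial.divX with hH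
  have hFH : ∀ a b, F a b = H a b * Polynomial.X := by
    intro a b
    have h1 := Polynomial.divX_mul_X_add (F a b)
    rw [hF0, map_zero, add_zero] at h1
    exact h1.symm
  have hFt : ∀ t : K, F.map (Polynomial.eval t) = t • H.map (Polynomial.eval t) := by
    intro t
    ext a b
    rw [Matrix.map_apply, hFH, Matrix.smul_apply, Matrix.map_apply, Polynomial.eval_mul,
      Polynomial.eval_X, smul_eq_mul, mul_comm]
  -- the key identity away from zero
  have key : ∀ x t : K, t ≠ 0 → (Matrix.scalar (Fin n) x - H.map (Polynomial.eval t)).det -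
      (Matrix.scalar (Fin n) 0 - H.map (Polynomial.eval t)).det = x ^ n := by
    intro x t ht
    obtain ⟨c, hc⟩ := hch (fun i => B i + t • C i)
    rw [← hev, hFt] at hc
    have h1 : ∀ y : K, t ^ n * (Matrix.scalar (Fin n) y - H.map (Polynomial.eval t)).det =
        (t * y) ^ n - c := by
      intro y
      have h2 := congrArg (Polynomial.eval (t * y)) hc
      rw [Matrix.eval_charpoly] at h2
      have h3 : Matrix.scalar (Fin n) (t * y) - t • H.map (Polynomial.eval t) =
          t • (Matrix.scalar (Fin n) y - H.map (Polynomial.eval t)) := by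
        rw [smul_sub]
        congr 1
        ext a b
        by_cases hab : a = b
        · subst hab; simp
        · simp [hab]
      rw [h3, Matrix.det_smul, Fintype.card_fin] at h2
      rw [h2]
      simp
    have h2 := h1 x
    have h3 := h1 0
    have hn0 : n ≠ 0 := by rintro rfl; exact absurd hn (by decide)
    rw [mul_zero, zero_pow hn0, zero_sub] at h3
    have h4 : t ^ n * ((Matrix.scalar (Fin n) x - H.map (Polynomial.eval t)).det -
      (Matrix.scalar (Fin n) 0 - H.map (Polynomial.eval t)).det) = t ^ n * x ^ n := by
      rw [mul_sub, h2, h3, mul_pow]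
      ring
    exact mul_left_cancel₀ (pow_ne_zero n ht) h4
  -- the key identity at zero
  have key0 : ∀ x : K, (Matrix.scalar (Fin n) x - H.map (Polynomial.eval 0)).det -
      (Matrix.scalar (Fin n) 0 - H.map (Polynomial.eval 0)).det = x ^ n := by
    intro x
    set g : Polynomial K := (Matrix.scalar (Fin n) (Polynomial.C x) - H).det -
      (Matrix.scalar (Fin n) (Polynomial.C 0) - H).det - Polynomial.C (x ^ n) with hg
    have hge : ∀ t : K, Polynomial.eval t g =
        (Matrix.scalar (Fin n) x - H.map (Polynomial.eval t)).det -
        (Matrix.scalar (Fin n) 0 - H.map (Polynomial.eval t)).det - x ^ n := by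
      intro t
      have h1 : ∀ y : K, (Matrix.scalar (Fin n) (Polynomial.C y) - H).map (Polynomial.eval t) =
          Matrix.scalar (Fin n) y - H.map (Polynomial.eval t) := by
        intro y
        ext a b
        by_cases hab : a = b
        · subst hab; simp
        · simp [hab]
      rw [hg, Polynomial.eval_sub, Polynomial.eval_sub, eval_det_map, eval_det_map, h1, h1,
        Polynomial.eval_C]
    have hg0 : g = 0 := by
      apply Polynomial.eq_zero_of_infinite_isRoot
      apply Set.Infinite.mono (s := {t : K | t ≠ 0})
      · intro t ht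
        change Polynomial.eval t g = 0
        rw [hge, key x t ht, sub_self]
      · exact (Set.finite_singleton (0 : K)).infinite_compl
    have h1 := hge 0
    rw [hg0, Polynomial.eval_zero] at h1
    exact sub_eq_zero.mp h1.symm
  -- the matrix at zero
  set N := H.map (Polynomial.eval 0) with hN
  have hNF : ∀ a b, N a b = FreeAlgebra.lift K (fun i => fromBlocks (B i) (C i) 0 (B i)) f
      (Sum.inl a) (Sum.inr b) := by
    intro a b
    rw [dual, Matrix.fromBlocks_apply₁₂, Matrix.map_apply, ← hF, hN, Matrix.map_apply, hFH,
      Polynomial.coeff_mul_X, Polynomial.coeff_zero_eq_eval_zero]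
  have hrinj : Function.Injective (fun x : Fin n ⊕ Fin n => (finSumFinEquiv x : ℕ)) := by
    intro x y h
    exact finSumFinEquiv.injective (Fin.ext h)
  have hNt : ∀ a b, b < a → N a b = 0 := by
    intro a b hab
    rw [hNF]
    have hab' : (b : ℕ) < a := hab
    have hbn := b.2
    have han := a.2
    let e : Fin n → Fin n ⊕ Fin n := fun k => finSumFinEquiv.symm ⟨b + 1 + k, by omega⟩
    have he : ∀ k, ((finSumFinEquiv (e k) : Fin (n + n)) : ℕ) = (b + 1 : ℕ) + k := by
      intro k
      simp [e]
    obtain ⟨h1, h2⟩ := window (fun x : Fin n ⊕ Fin n => (finSumFinEquiv x : ℕ)) hrinj (b + 1 : ℕ) e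
      he (fun i => fromBlocks (B i) (C i) 0 (B i)) (by
        intro i k l hkl
        rcases k with k | k <;> rcases l with l | l
        · simp only [finSumFinEquiv_apply_left, Fin.val_castAdd] at hkl
          exact hB i k l hkl
        · simp only [finSumFinEquiv_apply_left, finSumFinEquiv_apply_right, Fin.val_castAdd,
            Fin.val_natAdd] at hkl
          have := k.2
          omega
        · rfl
        · simp only [finSumFinEquiv_apply_right, Fin.val_natAdd] at hkl
          exact hB i k l (by rw [Fin.lt_def]; omega)) f
    rw [hup _ (by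
      intro i k l hkl
      rw [Matrix.submatrix_apply]
      have hkl' : (l : ℕ) < k := hkl
      have h3 := he k
      have h4 := he l
      generalize e k = x at h3 ⊢
      generalize e l = y at h4 ⊢
      rcases x with x | x <;> rcases y with y | y
      · simp only [finSumFinEquiv_apply_left, Fin.val_castAdd] at h3 h4
        exact hB i x y (by rw [Fin.lt_def]; omega)
      · simp only [finSumFinEquiv_apply_left, finSumFinEquiv_apply_right, Fin.val_castAdd,
          Fin.val_natAdd] at h3 h4
        have := x.2
        omega
      · rfl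
      · simp only [finSumFinEquiv_apply_right, Fin.val_natAdd] at h3 h4
        exact hB i x y (by rw [Fin.lt_def]; omega))] at h2
    have h5 : Sum.inl a = e ⟨a - b - 1, by omega⟩ := by
      apply finSumFinEquiv.injective
      apply Fin.ext
      rw [he]
      simp only [finSumFinEquiv_apply_left, Fin.val_castAdd]
      omega
    have h6 : Sum.inr b = e ⟨n - 1, by omega⟩ := by
      apply finSumFinEquiv.injective
      apply Fin.ext
      rw [he]
      simp only [finSumFinEquiv_apply_right, Fin.val_natAdd]
      omega
    rw [h5, h6]
    exact congrFun (congrFun h2 _) _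
  have hdet : ∀ x : K, (Matrix.scalar (Fin n) x - N).det = ∏ a, (x - ψ a) := by
    intro x
    rw [Matrix.det_of_upperTriangular]
    · refine Finset.prod_congr rfl fun a _ => ?_
      rw [hψ, ← hNF]
      simp
    · intro a b hab
      have hab' : b < a := hab
      rw [Matrix.sub_apply, hNt a b hab']
      simp [hab'.ne']
  apply Polynomial.funext
  intro x
  have h1 := key0 x
  rw [hdet, hdet] at h1
  rw [Polynomial.eval_prod]
  simp only [Polynomial.eval_sub, Polynomial.eval_X, Polynomial.eval_C, Polynomial.eval_pow]
  rw [← h1]
  have h2 : ∏ a, (0 - ψ a) = - ∏ a, ψ a := by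
    simp only [zero_sub]
    rw [Finset.prod_neg, Finset.card_univ, Fintype.card_fin, hn.neg_one_pow, neg_one_mul]
  rw [h2]
  ring

end Pool.Agent.R176.NC
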