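import Mathlib
import Pool.Agent.R176.NC.Cyc

/-!
The values of the corner entry on triangular matrices of size `n + 1` with equal first and last
diagonal entries.
-/

set_option autoImplicit false

namespace Pool.Agent.R176.NC

open Matrix

variable {K : Type*} [Field K] {σ : Type*}

theorem pow_eq_prod {n : ℕ} (ψ : Fin n → K)
    (h : ∏ a, (Polynomial.X - Polynomial.C (ψ a)) = Polynomial.X ^ n - Polynomial.C (∏ a, ψ a))
    (a : Fin n) : ψ a ^ n = ∏ b, ψ b := by
  have h1 := congrArg (Polynomial.eval (ψ a)) h
  rw [Polynomial.eval_prod, Finset.prod_eq_zero (Finset.mem_univ a) (by simp)] at h1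
  simp only [Polynomial.eval_sub, Polynomial.eval_X, Polynomial.eval_C, Polynomial.eval_pow] at h1
  exact (sub_eq_zero.mp h1.symm)

theorem zero_of_const {n : ℕ} (hn : 2 ≤ n) (hnK : (n : K) ≠ 0) (ψ : Fin n → K)
    (h : ∏ a, (Polynomial.X - Polynomial.C (ψ a)) = Polynomial.X ^ n - Polynomial.C (∏ a, ψ a))
    (a : Fin n) (h1 : ∀ b, ψ b = ψ a) : ψ a = 0 := by
  by_contra hne
  have h3 := congrArg (fun p => Polynomial.eval (ψ a) (Polynomial.derivative p)) h
  simp only [h1, Finset.prod_const, Finset.card_univ, Fintype.card_fin] at h3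
  rw [Polynomial.derivative_X_sub_C_pow, Polynomial.derivative_sub, Polynomial.derivative_C,
    Polynomial.derivative_X_pow] at h3
  simp only [Polynomial.eval_mul, Polynomial.eval_pow, Polynomial.eval_sub,
    Polynomial.eval_X, Polynomial.eval_C, sub_self, sub_zero] at h3
  rw [zero_pow (by omega), mul_zero] at h3
  rcases mul_eq_zero.mp h3.symm with h4 | h4
  · exact hnK (by simpa using h4)
  · exact hne (pow_eq_zero_iff (by omega) |>.mp h4)

/-- Periodic data. -/
theorem periodic [Infinite K] {n : ℕ} (hn : Odd n) (f : FreeAlgebra K σ)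
    (hup : ∀ X : σ → Matrix (Fin n) (Fin n) K, (∀ i a b, b < a → X i a b = 0) →
      FreeAlgebra.lift K X f = 0)
    (hch : ∀ X : σ → Matrix (Fin n) (Fin n) K,
      ∃ c : K, (FreeAlgebra.lift K X f).charpoly = Polynomial.X ^ n - Polynomial.C c)
    (P : σ → ℕ → ℕ → K) (hP : ∀ i a b, b < a → P i a b = 0)
    (hper : ∀ i a b, P i (a + n) (b + n) = P i a b) (ψ : Fin n → K)
    (hψ : ∀ a : Fin n, ψ a = FreeAlgebra.lift K (fun i => (Matrix.of fun k l : Fin (n + 1) =>
      P i (a + k) (a + l) : Matrix (Fin (n + 1)) (Fin (n + 1)) K)) f 0 (Fin.last n)) :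
    ∏ a, (Polynomial.X - Polynomial.C (ψ a)) = Polynomial.X ^ n - Polynomial.C (∏ a, ψ a) := by
  refine diag_prod hn f hup hch (fun i => Matrix.of fun k l : Fin n => P i k l)
    (fun i => Matrix.of fun k l : Fin n => P i k (n + l)) (fun i a b h => hP i a b h) ψ ?_
  intro a
  have hrinj : Function.Injective (fun x : Fin n ⊕ Fin n => (finSumFinEquiv x : ℕ)) := by
    intro x y h
    exact finSumFinEquiv.injective (Fin.ext h)
  have han := a.2
  let e : Fin (n + 1) → Fin n ⊕ Fin n := fun k => finSumFinEquiv.symm ⟨a + k, by omega⟩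
  have he : ∀ k, ((finSumFinEquiv (e k) : Fin (n + n)) : ℕ) = (a : ℕ) + k := by
    intro k
    simp [e]
  have hM : ∀ i (x y : Fin n ⊕ Fin n), fromBlocks (Matrix.of fun k l : Fin n => P i k l)
      (Matrix.of fun k l : Fin n => P i k (n + l)) 0 (Matrix.of fun k l : Fin n => P i k l) x y =
      P i (finSumFinEquiv x : Fin (n + n)) (finSumFinEquiv y : Fin (n + n)) := by
    intro i x y
    rcases x with x | x <;> rcases y with y | y
    · simp
    · simp only [fromBlocks_apply₁₂, finSumFinEquiv_apply_left, finSumFinEquiv_apply_right,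
        Fin.val_castAdd, Fin.val_natAdd, of_apply]
    · simp only [fromBlocks_apply₂₁, finSumFinEquiv_apply_left, finSumFinEquiv_apply_right,
        Fin.val_castAdd, Fin.val_natAdd]
      rw [hP]
      · rfl
      · have := y.2
        omega
    · simp only [fromBlocks_apply₂₂, finSumFinEquiv_apply_right, Fin.val_natAdd, of_apply]
      rw [add_comm n x, add_comm n y, hper]
  obtain ⟨-, h2⟩ := window (fun x : Fin n ⊕ Fin n => (finSumFinEquiv x : ℕ)) hrinj (a : ℕ) e
    he (fun i => fromBlocks (Matrix.of fun k l : Fin n => P i k l)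
      (Matrix.of fun k l : Fin n => P i k (n + l)) 0 (Matrix.of fun k l : Fin n => P i k l)) (by
        intro i k l hkl
        rw [hM]
        exact hP i _ _ hkl) f
  have h5 : Sum.inl a = e 0 := by
    apply finSumFinEquiv.injective
    apply Fin.ext
    rw [he]
    simp
  have h6 : Sum.inr a = e (Fin.last n) := by
    apply finSumFinEquiv.injective
    apply Fin.ext
    rw [he]
    simp [add_comm]
  have hW : (fun i => (Matrix.of fun k l : Fin (n + 1) =>
      P i (a + k) (a + l) : Matrix (Fin (n + 1)) (Fin (n + 1)) K)) =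
      fun i => (fromBlocks (Matrix.of fun k l : Fin n => P i k l)
      (Matrix.of fun k l : Fin n => P i k (n + l)) 0
      (Matrix.of fun k l : Fin n => P i k l)).submatrix e e := by
    funext i
    ext k l
    rw [Matrix.submatrix_apply, hM, he, he]
    rfl
  rw [h5, h6, hψ, hW]
  have h7 := congrFun (congrFun h2 0) (Fin.last n)
  rw [Matrix.submatrix_apply] at h7
  rw [h7]

/-- Matrices of size `n + 1` with equal first and last diagonal entries. -/
theorem closed_zero {n : ℕ} (hn2 : 2 ≤ n) (f : FreeAlgebra K σ)
    (hup : ∀ X : σ → Matrix (Fin n) (Fin n) K, (∀ i a b, b < a → X i a b = 0) →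
      FreeAlgebra.lift K X f = 0)
    (hψ : ∀ P : σ → ℕ → ℕ → K, (∀ i a b, b < a → P i a b = 0) →
      (∀ i a b, P i (a + n) (b + n) = P i a b) →
      FreeAlgebra.lift K (fun i => (Matrix.of fun k l : Fin (n + 1) =>
        P i (0 + k) (0 + l) : Matrix (Fin (n + 1)) (Fin (n + 1)) K)) f 0 (Fin.last n) = 0)
    (A : σ → Matrix (Fin (n + 1)) (Fin (n + 1)) K) (hA : ∀ i a b, b < a → A i a b = 0)
    (hA0 : ∀ i, A i 0 0 = A i (Fin.last n) (Fin.last n)) :
    FreeAlgebra.lift K A f = 0 := by
  have : NeZero n := ⟨by omega⟩
  -- the corner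
  have hcor : FreeAlgebra.lift K A f 0 (Fin.last n) = 0 := by
    let P : σ → ℕ → ℕ → K := fun i a b => if b / n = a / n then
      A i (Fin.castSucc (Fin.ofNat n a)) (Fin.castSucc (Fin.ofNat n b))
      else if b = n * (a / n + 1) then A i (Fin.castSucc (Fin.ofNat n a)) (Fin.last n) else 0
    have hPd : ∀ i a b, P i a b = if b / n = a / n then
      A i (Fin.castSucc (Fin.ofNat n a)) (Fin.castSucc (Fin.ofNat n b))
      else if b = n * (a / n + 1) then A i (Fin.castSucc (Fin.ofNat n a)) (Fin.last n) else 0 :=
      fun i a b => rfl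
    have hP : ∀ i a b, b < a → P i a b = 0 := by
      intro i a b hab
      rw [hPd]
      by_cases h1 : b / n = a / n
      · rw [if_pos h1]
        apply hA
        rw [Fin.lt_def]
        simp only [Fin.val_castSucc, Fin.val_ofNat]
        have h2 := Nat.div_add_mod a n
        have h3 := Nat.div_add_mod b n
        rw [h1] at h3
        omega
      · rw [if_neg h1, if_neg]
        intro h2
        have h3 := Nat.lt_mul_div_succ a (b := n) (by omega)
        omega
    have hper : ∀ i a b, P i (a + n) (b + n) = P i a b := by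
      intro i a b
      rw [hPd, hPd, Nat.add_div_right _ (by omega), Nat.add_div_right _ (by omega)]
      have h1 : Fin.ofNat n (a + n) = Fin.ofNat n a := by
        apply Fin.ext
        simp
      have h2 : Fin.ofNat n (b + n) = Fin.ofNat n b := by
        apply Fin.ext
        simp
      rw [h1, h2]
      refine if_congr (by simp) rfl (if_congr ?_ rfl rfl)
      constructor
      · intro h
        have : n * (a / n + 1 + 1) = n * (a / n + 1) + n := by ring
        omega
      · intro h
        have : n * (a / n + 1 + 1) = n * (a / n + 1) + n := by ring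
        omega
    refine (congrArg (fun B : σ → Matrix (Fin (n + 1)) (Fin (n + 1)) K =>
      FreeAlgebra.lift K B f 0 (Fin.last n)) ?_).trans (hψ P hP hper)
    funext i
    ext k l
    rw [Matrix.of_apply, zero_add, zero_add, hPd]
    induction k using Fin.lastCases with
    | last =>
      induction l using Fin.lastCases with
      | last =>
        rw [if_pos rfl, ← hA0]
        congr 1 <;> (apply Fin.ext; simp)
      | cast l =>
        have hl := l.2
        rw [if_neg, if_neg, hA]
        · exact Fin.castSucc_lt_last l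
        · rw [Fin.val_last, Nat.div_self (by omega), Fin.val_castSucc]
          omega
        · rw [Fin.val_last, Nat.div_self (by omega), Fin.val_castSucc, Nat.div_eq_of_lt hl]
          omega
    | cast k =>
      have hk := k.2
      induction l using Fin.lastCases with
      | last =>
        rw [Fin.val_last, Fin.val_castSucc, Nat.div_self (by omega), Nat.div_eq_of_lt hk,
          if_neg (by omega), if_pos (by omega)]
        congr 1
        apply Fin.ext
        simp
      | cast l =>
        have hl := l.2
        rw [Fin.val_castSucc, Fin.val_castSucc, Nat.div_eq_of_lt hk, Nat.div_eq_of_lt hl,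
          if_pos rfl]
        congr 1
        · apply Fin.ext
          simp
        · apply Fin.ext
          simp
  -- the other entries
  have hval : Function.Injective (fun x : Fin (n + 1) => (x : ℕ)) := Fin.val_injective
  have hwin : ∀ a, a ≤ 1 → ∀ k l : Fin (n + 1), a ≤ (k : ℕ) → (k : ℕ) < a + n → a ≤ (l : ℕ) →
      (l : ℕ) < a + n → FreeAlgebra.lift K A f k l = 0 := by
    intro a ha k l hk1 hk2 hl1 hl2
    have h1 := (window (fun x : Fin (n + 1) => (x : ℕ)) hval a
      (fun k : Fin n => (⟨a + k, by omega⟩ : Fin (n + 1))) (fun k => rfl) A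
      (fun i k l h => hA i k l h) f).2
    rw [hup _ (by
      intro i k l hkl
      rw [Matrix.submatrix_apply]
      apply hA
      rw [Fin.lt_def] at hkl ⊢
      simp only
      omega)] at h1
    have h2 := congrFun (congrFun h1 ⟨k - a, by omega⟩) ⟨l - a, by omega⟩
    have e1 : (⟨a + ((⟨(k : ℕ) - a, by omega⟩ : Fin n) : ℕ), by simp only; omega⟩ :
      Fin (n + 1)) = k := Fin.ext (by simp only; omega)
    have e2 : (⟨a + ((⟨(l : ℕ) - a, by omega⟩ : Fin n) : ℕ), by simp only; omega⟩ :
      Fin (n + 1)) = l := Fin.ext (by simp only; omega)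
    rw [Matrix.submatrix_apply, e1, e2] at h2
    exact h2
  have hlow := (window (fun x : Fin (n + 1) => (x : ℕ)) hval 0
      (fun k : Fin n => (⟨0 + k, by omega⟩ : Fin (n + 1))) (fun k => rfl) A
      (fun i k l h => hA i k l h) f).1
  ext k l
  rw [Matrix.zero_apply]
  by_cases hk : (k : ℕ) = 0
  · by_cases hl : (l : ℕ) = n
    · have h1 : k = 0 := Fin.ext hk
      have h2 : l = Fin.last n := Fin.ext hl
      rw [h1, h2, hcor]
    · exact hwin 0 (by omega) k l (by omega) (by omega) (by omega) (by omega)
  · by_cases hl : (l : ℕ) = 0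
    · exact hlow k l (by omega)
    · exact hwin 1 le_rfl k l (by omega) (by omega) (by omega) (by omega)

end Pool.Agent.R176.NC
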