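import Mathlib
import Pool.Agent.R176.NC.Close

/-!
The dichotomy: the corner entries of rotated data differ by a fixed root of unity.
-/

set_option autoImplicit false

namespace Pool.Agent.R176.NC

open Matrix

variable {K : Type*} [Field K] {σ : Type*}

/-- Upper triangular periodic arrays. -/
def Per (n : ℕ) (P : σ → ℕ → ℕ → K) : Prop :=
  (∀ i a b, b < a → P i a b = 0) ∧ ∀ i a b, P i (a + n) (b + n) = P i a b

/-- The `(n + 1) × (n + 1)` window starting at `a`. -/
def win (n : ℕ) (P : σ → ℕ → ℕ → K) (a : ℕ) (i : σ) : Matrix (Fin (n + 1)) (Fin (n + 1)) K :=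
  Matrix.of fun k l => P i (a + k) (a + l)

/-- The corner entry. -/
noncomputable def psi (n : ℕ) (f : FreeAlgebra K σ) (P : σ → ℕ → ℕ → K) (a : ℕ) : K :=
  FreeAlgebra.lift K (win n P a) f 0 (Fin.last n)

/-- The shift. -/
def sh (P : σ → ℕ → ℕ → K) : σ → ℕ → ℕ → K := fun i a b => P i (a + 1) (b + 1)

theorem Per.sh {n : ℕ} {P : σ → ℕ → ℕ → K} (h : Per n P) : Per n (sh P) := by
  refine ⟨fun i a b hab => h.1 i _ _ (by omega), fun i a b => ?_⟩
  unfold NC.sh
  rw [← h.2 i (a + 1) (b + 1)]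
  congr 1 <;> omega

theorem psi_sh (n : ℕ) (f : FreeAlgebra K σ) (P : σ → ℕ → ℕ → K) (a : ℕ) :
    psi n f (sh P) a = psi n f P (a + 1) := by
  have h : win n (sh P) a = win n P (a + 1) := by
    funext i
    ext k l
    rw [win, win, Matrix.of_apply, Matrix.of_apply, sh]
    congr 1 <;> omega
  rw [psi, psi, h]

theorem psi_period (n : ℕ) (f : FreeAlgebra K σ) (P : σ → ℕ → ℕ → K) (h : Per n P) (a : ℕ) :
    psi n f P (a + n) = psi n f P a := by
  have h : win n P (a + n) = win n P a := by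
    funext i
    ext k l
    rw [win, win, Matrix.of_apply, Matrix.of_apply, ← h.2 i (a + k) (a + l)]
    congr 1 <;> omega
  rw [psi, psi, h]

/-- The polynomial along a line. -/
theorem psi_line (n : ℕ) (f : FreeAlgebra K σ) (P Q : σ → ℕ → ℕ → K) (a : ℕ) :
    ∃ p : Polynomial K, ∀ t : K,
      p.eval t = psi n f (fun i u v => P i u v + t * Q i u v) a := by
  refine ⟨FreeAlgebra.lift K (line (win n P a) (win n Q a)) f 0 (Fin.last n), fun t => ?_⟩
  have h1 := congrFun (congrFun (eval_line (win n P a) (win n Q a) f t) 0) (Fin.last n)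
  rw [Matrix.map_apply] at h1
  rw [h1, psi]
  congr 3

theorem dichotomy [Infinite K] {n : ℕ} (hn : n.Prime) (hn2 : n ≠ 2) (hnK : (n : K) ≠ 0)
    (f : FreeAlgebra K σ)
    (hup : ∀ X : σ → Matrix (Fin n) (Fin n) K, (∀ i a b, b < a → X i a b = 0) →
      FreeAlgebra.lift K X f = 0)
    (hch : ∀ X : σ → Matrix (Fin n) (Fin n) K,
      ∃ c : K, (FreeAlgebra.lift K X f).charpoly = Polynomial.X ^ n - Polynomial.C c) :
    (∀ A : σ → Matrix (Fin (n + 1)) (Fin (n + 1)) K, (∀ i a b, b < a → A i a b = 0) →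
      (∀ i, A i 0 0 = A i (Fin.last n) (Fin.last n)) → FreeAlgebra.lift K A f = 0) ∨
    (∃ ζ : K, IsPrimitiveRoot ζ n ∧ ∀ P : σ → ℕ → ℕ → K, Per n P → ∀ a : ℕ,
      psi n f P a = ζ ^ a * psi n f P 0) := by
  classical
  have hodd : Odd n := hn.odd_of_ne_two hn2
  have hn1 := hn.two_le
  have : NeZero n := ⟨hn.ne_zero⟩
  have hprod : ∀ P : σ → ℕ → ℕ → K, Per n P →
      ∏ a : Fin n, (Polynomial.X - Polynomial.C (psi n f P a)) =
        Polynomial.X ^ n - Polynomial.C (∏ a : Fin n, psi n f P a) := fun P hP =>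
    periodic hodd f hup hch P hP.1 hP.2 (fun a : Fin n => psi n f P a) (fun a => rfl)
  have hpow : ∀ P : σ → ℕ → ℕ → K, Per n P → psi n f P 1 ^ n = psi n f P 0 ^ n := by
    intro P hP
    have h0 := pow_eq_prod _ (hprod P hP) ⟨0, by omega⟩
    have h1 := pow_eq_prod _ (hprod P hP) ⟨1, by omega⟩
    exact h1.trans h0.symm
  by_cases hz : ∀ P : σ → ℕ → ℕ → K, Per n P → psi n f P 0 = 0
  · left
    exact fun A hA hA0 => closed_zero hn1 f hup (fun P h1 h2 => hz P ⟨h1, h2⟩) A hA hA0
  right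
  push Not at hz
  obtain ⟨P₀, hP₀, hne⟩ := hz
  set ζ := psi n f P₀ 1 / psi n f P₀ 0 with hζ
  have hζn : ζ ^ n = 1 := by
    rw [hζ, div_pow, hpow P₀ hP₀, div_self (pow_ne_zero n hne)]
  have hstep : ∀ P : σ → ℕ → ℕ → K, Per n P → psi n f P 1 = ζ * psi n f P 0 := by
    intro P hP
    let Q : σ → ℕ → ℕ → K := fun i u v => P i u v - P₀ i u v
    have hL : ∀ t : K, Per n (fun i u v => P₀ i u v + t * Q i u v) := by
      intro t
      refine ⟨fun i a b h => ?_, fun i a b => ?_⟩
      · simp [Q, hP₀.1 i a b h, hP.1 i a b h]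
      · simp only [Q, hP₀.2 i a b, hP.2 i a b]
    obtain ⟨p, hp⟩ := psi_line n f P₀ Q 0
    obtain ⟨q, hq⟩ := psi_line n f P₀ Q 1
    have hpq : q ^ n = p ^ n := by
      apply Polynomial.funext
      intro t
      rw [Polynomial.eval_pow, Polynomial.eval_pow, hp, hq]
      exact hpow _ (hL t)
    have e0 : (fun i u v => P₀ i u v + (0 : K) * Q i u v) = P₀ := by
      funext i u v
      simp
    have e1 : (fun i u v => P₀ i u v + (1 : K) * Q i u v) = P := by
      funext i u v
      simp [Q]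
    have hp0 := hp 0
    have hp1 := hp 1
    have hq0 := hq 0
    have hq1 := hq 1
    rw [e0] at hp0 hq0
    rw [e1] at hp1 hq1
    have hpne : p ≠ 0 := by
      rintro rfl
      rw [Polynomial.eval_zero] at hp0
      exact hne hp0.symm
    obtain ⟨u, hu⟩ := (UniqueFactorizationMonoid.pow_dvd_pow_iff_dvd hn.ne_zero).mp (dvd_of_eq hpq.symm)
    have hdeg : q.natDegree = p.natDegree := by
      have := congrArg Polynomial.natDegree hpq
      rw [Polynomial.natDegree_pow, Polynomial.natDegree_pow] at this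
      exact Nat.eq_of_mul_eq_mul_left hn.pos this
    have hqne : q ≠ 0 := by
      rintro rfl
      rw [zero_pow hn.ne_zero] at hpq
      exact pow_ne_zero n hpne hpq.symm
    have hune : u ≠ 0 := by
      rintro rfl
      rw [mul_zero] at hu
      exact hqne hu
    have hu0 : u.natDegree = 0 := by
      rw [hu, Polynomial.natDegree_mul hpne hune] at hdeg
      omega
    obtain ⟨c, rfl⟩ := Polynomial.natDegree_eq_zero.mp hu0
    have hc : c = ζ := by
      have h1 := hq0
      rw [hu, Polynomial.eval_mul, Polynomial.eval_C, hp0] at h1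
      rw [hζ, ← h1, mul_div_cancel_left₀ _ hne]
    rw [← hq1, hu, Polynomial.eval_mul, Polynomial.eval_C, hp1, hc, mul_comm]
  have hall : ∀ a : ℕ, ∀ P : σ → ℕ → ℕ → K, Per n P → psi n f P a = ζ ^ a * psi n f P 0 := by
    intro a
    induction a with
    | zero => intro P _; simp
    | succ a ih =>
      intro P hP
      rw [← psi_sh, ih _ hP.sh, psi_sh, zero_add, hstep P hP]
      ring
  refine ⟨ζ, ?_, fun P hP a => hall a P hP⟩
  have hζ1 : ζ ≠ 1 := by
    intro h1
    apply hne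
    refine zero_of_const hn1 hnK (fun a : Fin n => psi n f P₀ a) (hprod P₀ hP₀) ⟨0, by omega⟩ ?_
    intro b
    simp only
    rw [hall b P₀ hP₀, h1, one_pow, one_mul]
  have : Fact n.Prime := ⟨hn⟩
  have h1 := orderOf_eq_prime hζn hζ1
  rw [← h1]
  exact IsPrimitiveRoot.orderOf ζ

end Pool.Agent.R176.NC
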