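import Mathlib
import Pool.Agent.R176.NC.Dich

/-!
Powers of the derivative, for base fields of any characteristic.
-/

set_option autoImplicit false

namespace Pool.Agent.R176.NC

open Matrix

variable {K : Type*} [Field K] {σ : Type*}

theorem exists_H {n : ℕ} (f : FreeAlgebra K σ)
    (hup : ∀ X : σ → Matrix (Fin n) (Fin n) K, (∀ i a b, b < a → X i a b = 0) →
      FreeAlgebra.lift K X f = 0)
    (B C : σ → Matrix (Fin n) (Fin n) K) (hB : ∀ i a b, b < a → B i a b = 0) :
    ∃ H : Matrix (Fin n) (Fin n) (Polynomial K),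
      (∀ t : K, FreeAlgebra.lift K (fun i => B i + t • C i) f = t • H.map (Polynomial.eval t)) ∧
      (∀ a b, b < a → H.map (Polynomial.eval 0) a b = 0) ∧
      (∀ a b, H.map (Polynomial.eval 0) a b =
        FreeAlgebra.lift K (fun i => fromBlocks (B i) (C i) 0 (B i)) f
          (Sum.inl a) (Sum.inr b)) := by
  classical
  set F := FreeAlgebra.lift K (line B C) f with hF
  have hev : ∀ t : K, F.map (Polynomial.eval t) =
      FreeAlgebra.lift K (fun i => B i + t • C i) f := eval_line B C f
  have hF0 : ∀ a b, (F a b).coeff 0 = 0 := by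
    intro a b
    have h1 := congrFun (congrFun (hev 0) a) b
    rw [hup _ (fun i a b h => by simp [hB i a b h])] at h1
    rw [Polynomial.coeff_zero_eq_eval_zero]
    exact h1
  set H : Matrix (Fin n) (Fin n) (Polynomial K) := F.map Polynomial.divX with hH
  have hFH : ∀ a b, F a b = H a b * Polynomial.X := by
    intro a b
    have h1 := Polynomial.divX_mul_X_add (F a b)
    rw [hF0, map_zero, add_zero] at h1
    exact h1.symm
  have hFt : ∀ t : K, F.map (Polynomial.eval t) = t • H.map (Polynomial.eval t) := by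
    intro t
    ext a b
    rw [Matrix.map_apply, hFH, Matrix.smul_apply, Matrix.map_apply, Polynomial.eval_mul,
      Polynomial.eval_X, smul_eq_mul, mul_comm]
  -- the matrix at zero
  set N := H.map (Polynomial.eval 0) with hN
  have hNF : ∀ a b, N a b = FreeAlgebra.lift K (fun i => fromBlocks (B i) (C i) 0 (B i)) f
      (Sum.inl a) (Sum.inr b) := by
    intro a b
    rw [dual, Matrix.fromBlocks_apply₁₂, Matrix.map_apply, ← hF, hN, Matrix.map_apply, hFH,
      Polynomial.coeff_mul_X, Polynomial.coeff_zero_eq_eval_zero]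
  have hrinj : Function.Injective (fun x : Fin n ⊕ Fin n => (finSumFinEquiv x : ℕ)) := by
    intro x y h
    exact finSumFinEquiv.injective (Fin.ext h)
  have hNt : ∀ a b, b < a → N a b = 0 := by
    intro a b hab
    rw [hNF]
    have hab' : (b : ℕ) < a := hab
    have hbn := b.2
    have han := a.2
    let e : Fin n → Fin n ⊕ Fin n := fun k => finSumFinEquiv.symm ⟨b + 1 + k, by omega⟩
    have he : ∀ k, ((finSumFinEquiv (e k) : Fin (n + n)) : ℕ) = (b + 1 : ℕ) + k := by
      intro k
      simp [e]
    obtain ⟨h1, h2⟩ := window (fun x : Fin n ⊕ Fin n => (finSumFinEquiv x : ℕ)) hrinj (b + 1 : ℕ) e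
      he (fun i => fromBlocks (B i) (C i) 0 (B i)) (by
        intro i k l hkl
        rcases k with k | k <;> rcases l with l | l
        · simp only [finSumFinEquiv_apply_left, Fin.val_castAdd] at hkl
          exact hB i k l hkl
        · simp only [finSumFinEquiv_apply_left, finSumFinEquiv_apply_right, Fin.val_castAdd,
            Fin.val_natAdd] at hkl
          have := k.2
          omega
        · rfl
        · simp only [finSumFinEquiv_apply_right, Fin.val_natAdd] at hkl
          exact hB i k l (by rw [Fin.lt_def]; omega)) f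
    rw [hup _ (by
      intro i k l hkl
      rw [Matrix.submatrix_apply]
      have hkl' : (l : ℕ) < k := hkl
      have h3 := he k
      have h4 := he l
      generalize e k = x at h3 ⊢
      generalize e l = y at h4 ⊢
      rcases x with x | x <;> rcases y with y | y
      · simp only [finSumFinEquiv_apply_left, Fin.val_castAdd] at h3 h4
        exact hB i x y (by rw [Fin.lt_def]; omega)
      · simp only [finSumFinEquiv_apply_left, finSumFinEquiv_apply_right, Fin.val_castAdd,
          Fin.val_natAdd] at h3 h4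
        have := x.2
        omega
      · rfl
      · simp only [finSumFinEquiv_apply_right, Fin.val_natAdd] at h3 h4
        exact hB i x y (by rw [Fin.lt_def]; omega))] at h2
    have h5 : Sum.inl a = e ⟨a - b - 1, by omega⟩ := by
      apply finSumFinEquiv.injective
      apply Fin.ext
      rw [he]
      simp only [finSumFinEquiv_apply_left, Fin.val_castAdd]
      omega
    have h6 : Sum.inr b = e ⟨n - 1, by omega⟩ := by
      apply finSumFinEquiv.injective
      apply Fin.ext
      rw [he]
      simp only [finSumFinEquiv_apply_right, Fin.val_natAdd]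
      omega
    rw [h5, h6]
    exact congrFun (congrFun h2 _) _
  exact ⟨H, fun t => by rw [← hev, hFt], hNt, hNF⟩

theorem tri_pow {n : ℕ} (N : Matrix (Fin n) (Fin n) K) (hN : ∀ a b, b < a → N a b = 0) (ν : ℕ) :
    (∀ a b, b < a → (N ^ ν) a b = 0) ∧ ∀ a, (N ^ ν) a a = N a a ^ ν := by
  induction ν with
  | zero =>
    refine ⟨fun a b h => ?_, fun a => ?_⟩
    · rw [pow_zero, Matrix.one_apply_ne h.ne']
    · rw [pow_zero, Matrix.one_apply_eq, pow_zero]
  | succ ν ih =>
    refine ⟨fun a b h => ?_, fun a => ?_⟩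
    · rw [pow_succ, Matrix.mul_apply]
      refine Finset.sum_eq_zero fun j _ => ?_
      rcases lt_or_ge j a with h1 | h1
      · rw [ih.1 _ _ h1, zero_mul]
      · rw [hN _ _ (lt_of_lt_of_le h h1), mul_zero]
    · rw [pow_succ, Matrix.mul_apply, Finset.sum_eq_single a]
      · rw [ih.2, pow_succ]
      · intro j _ hj
        rcases lt_or_gt_of_ne hj with h1 | h1
        · rw [ih.1 _ _ h1, zero_mul]
        · rw [hN _ _ h1, mul_zero]
      · intro h
        exact absurd (Finset.mem_univ _) h

theorem diag_pow [Infinite K] {n : ℕ} (f : FreeAlgebra K σ)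
    (hup : ∀ X : σ → Matrix (Fin n) (Fin n) K, (∀ i a b, b < a → X i a b = 0) →
      FreeAlgebra.lift K X f = 0) (ν : ℕ)
    (hsc : ∀ X : σ → Matrix (Fin n) (Fin n) K,
      ∃ c : K, FreeAlgebra.lift K X f ^ ν = Matrix.scalar (Fin n) c)
    (B C : σ → Matrix (Fin n) (Fin n) K) (hB : ∀ i a b, b < a → B i a b = 0) (a b : Fin n) :
    FreeAlgebra.lift K (fun i => fromBlocks (B i) (C i) 0 (B i)) f (Sum.inl a) (Sum.inr a) ^ ν =
    FreeAlgebra.lift K (fun i => fromBlocks (B i) (C i) 0 (B i)) f (Sum.inl b) (Sum.inr b) ^ ν := by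
  obtain ⟨H, h1, h2, h3⟩ := exists_H f hup B C hB
  rw [← h3, ← h3, ← (tri_pow _ h2 ν).2, ← (tri_pow _ h2 ν).2]
  have hmap : ∀ t : K, (H ^ ν).map (Polynomial.eval t) = (H.map (Polynomial.eval t)) ^ ν := by
    intro t
    exact map_pow ((Polynomial.evalRingHom t).mapMatrix (m := Fin n)) H ν
  set q : Polynomial K := (H ^ ν) a a - (H ^ ν) b b with hq
  have hqe : ∀ t : K, q.eval t = ((H.map (Polynomial.eval t)) ^ ν) a a -
      ((H.map (Polynomial.eval t)) ^ ν) b b := by
    intro t
    rw [← hmap, hq, Polynomial.eval_sub]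
    rfl
  have hq0 : q = 0 := by
    apply Polynomial.eq_zero_of_infinite_isRoot
    apply Set.Infinite.mono (s := {t : K | t ≠ 0})
    · intro t ht
      change Polynomial.eval t q = 0
      obtain ⟨c, hc⟩ := hsc (fun i => B i + t • C i)
      rw [h1, smul_pow] at hc
      have e1 := congrFun (congrFun hc a) a
      have e2 := congrFun (congrFun hc b) b
      simp only [Matrix.smul_apply, smul_eq_mul, Matrix.scalar_apply,
        Matrix.diagonal_apply_eq] at e1 e2
      rw [hqe, mul_left_cancel₀ (pow_ne_zero ν ht) (e1.trans e2.symm), sub_self]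
    · exact (Set.finite_singleton (0 : K)).infinite_compl
  have h4 := hqe 0
  rw [hq0, Polynomial.eval_zero] at h4
  exact sub_eq_zero.mp h4.symm

theorem block_window {n : ℕ} (f : FreeAlgebra K σ)
    (P : σ → ℕ → ℕ → K) (hP : ∀ i a b, b < a → P i a b = 0)
    (hper : ∀ i a b, P i (a + n) (b + n) = P i a b) (ψ : Fin n → K)
    (hψ : ∀ a : Fin n, ψ a = FreeAlgebra.lift K (fun i => (Matrix.of fun k l : Fin (n + 1) =>
      P i (a + k) (a + l) : Matrix (Fin (n + 1)) (Fin (n + 1)) K)) f 0 (Fin.last n)) :
    ∀ a : Fin n, ψ a = FreeAlgebra.lift K (fun i => fromBlocks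
      (Matrix.of fun k l : Fin n => P i k l) (Matrix.of fun k l : Fin n => P i k (n + l)) 0
      (Matrix.of fun k l : Fin n => P i k l)) f (Sum.inl a) (Sum.inr a) := by
  intro a
  have hrinj : Function.Injective (fun x : Fin n ⊕ Fin n => (finSumFinEquiv x : ℕ)) := by
    intro x y h
    exact finSumFinEquiv.injective (Fin.ext h)
  have han := a.2
  let e : Fin (n + 1) → Fin n ⊕ Fin n := fun k => finSumFinEquiv.symm ⟨a + k, by omega⟩
  have he : ∀ k, ((finSumFinEquiv (e k) : Fin (n + n)) : ℕ) = (a : ℕ) + k := by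
    intro k
    simp [e]
  have hM : ∀ i (x y : Fin n ⊕ Fin n), fromBlocks (Matrix.of fun k l : Fin n => P i k l)
      (Matrix.of fun k l : Fin n => P i k (n + l)) 0 (Matrix.of fun k l : Fin n => P i k l) x y =
      P i (finSumFinEquiv x : Fin (n + n)) (finSumFinEquiv y : Fin (n + n)) := by
    intro i x y
    rcases x with x | x <;> rcases y with y | y
    · simp
    · simp only [fromBlocks_apply₁₂, finSumFinEquiv_apply_left, finSumFinEquiv_apply_right,
        Fin.val_castAdd, Fin.val_natAdd, of_apply]
    · simp only [fromBlocks_apply₂₁, finSumFinEquiv_apply_left, finSumFinEquiv_apply_right,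
        Fin.val_castAdd, Fin.val_natAdd]
      rw [hP]
      · rfl
      · have := y.2
        omega
    · simp only [fromBlocks_apply₂₂, finSumFinEquiv_apply_right, Fin.val_natAdd, of_apply]
      rw [add_comm n x, add_comm n y, hper]
  obtain ⟨-, h2⟩ := window (fun x : Fin n ⊕ Fin n => (finSumFinEquiv x : ℕ)) hrinj (a : ℕ) e
    he (fun i => fromBlocks (Matrix.of fun k l : Fin n => P i k l)
      (Matrix.of fun k l : Fin n => P i k (n + l)) 0 (Matrix.of fun k l : Fin n => P i k l)) (by
        intro i k l hkl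
        rw [hM]
        exact hP i _ _ hkl) f
  have h5 : Sum.inl a = e 0 := by
    apply finSumFinEquiv.injective
    apply Fin.ext
    rw [he]
    simp
  have h6 : Sum.inr a = e (Fin.last n) := by
    apply finSumFinEquiv.injective
    apply Fin.ext
    rw [he]
    simp [add_comm]
  have hW : (fun i => (Matrix.of fun k l : Fin (n + 1) =>
      P i (a + k) (a + l) : Matrix (Fin (n + 1)) (Fin (n + 1)) K)) =
      fun i => (fromBlocks (Matrix.of fun k l : Fin n => P i k l)
      (Matrix.of fun k l : Fin n => P i k (n + l)) 0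
      (Matrix.of fun k l : Fin n => P i k l)).submatrix e e := by
    funext i
    ext k l
    rw [Matrix.submatrix_apply, hM, he, he]
    rfl
  rw [h5, h6, hψ, hW]
  have h7 := congrFun (congrFun h2 0) (Fin.last n)
  rw [Matrix.submatrix_apply] at h7
  rw [h7]

theorem frob [Infinite K] {n : ℕ} (hn : n.Prime) (hnK : (n : K) = 0)
    (f : FreeAlgebra K σ)
    (hup : ∀ X : σ → Matrix (Fin n) (Fin n) K, (∀ i a b, b < a → X i a b = 0) →
      FreeAlgebra.lift K X f = 0)
    (hsc : ∀ X : σ → Matrix (Fin n) (Fin n) K,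
      ∃ c : K, FreeAlgebra.lift K X f ^ n = Matrix.scalar (Fin n) c)
    (P : σ → ℕ → ℕ → K) (hP : Per n P) (a : ℕ) : psi n f P a = psi n f P 0 := by
  have hn1 := hn.two_le
  have : Fact n.Prime := ⟨hn⟩
  have : CharP K n := by
    obtain ⟨q, hq⟩ := CharP.exists K
    have h4 : q ∣ n := (CharP.cast_eq_zero_iff K q n).mp hnK
    rcases (Nat.dvd_prime hn).mp h4 with h5 | h5
    · exfalso
      have := CharP.cast_eq_zero K q
      rw [h5] at this
      simp at this
    · rw [← h5]; exact hq
  have hfin : ∀ P : σ → ℕ → ℕ → K, Per n P → psi n f P 1 = psi n f P 0 := by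
    intro P hP
    have h1 := block_window f P hP.1 hP.2 (fun a : Fin n => psi n f P a) (fun a => rfl)
    have h2 := diag_pow f hup n hsc (fun i => Matrix.of fun k l : Fin n => P i k l)
      (fun i => Matrix.of fun k l : Fin n => P i k (n + l)) (fun i a b h => hP.1 i a b h)
      ⟨1, by omega⟩ ⟨0, by omega⟩
    rw [← h1, ← h1] at h2
    simp only at h2
    have h3 : (psi n f P 1 - psi n f P 0) ^ n = 0 := by
      rw [sub_pow_char, h2, sub_self]
    exact sub_eq_zero.mp (pow_eq_zero_iff hn.ne_zero |>.mp h3)
  induction a generalizing P with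
  | zero => rfl
  | succ a ih =>
    rw [← psi_sh, ih _ hP.sh, psi_sh, zero_add, hfin P hP]

end Pool.Agent.R176.NC
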