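import Mathlib
import Pool.Agent.Results.MP_5d2531_al.BlockTriangular

/-!
`n`-central polynomials on upper triangular matrices: consequences of the starting result
`BlockTriangular`.
-/

set_option autoImplicit false

namespace Pool.Agent.R176.NC

open Matrix
open Pool.Agent.Results.MP_5d2531_al.BlockTriangular (IsNuCentral IsCentral coef lift_zero_coef)

variable {K : Type*} [Field K] {σ : Type*}

lemma lift_reindex {ι κ : Type*} [Fintype ι] [Fintype κ] [DecidableEq ι] [DecidableEq κ]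
    (e : ι ≃ κ) (Y : σ → Matrix ι ι K) (f : FreeAlgebra K σ) :
    FreeAlgebra.lift K (fun i => Matrix.reindexAlgEquiv K K e (Y i)) f =
      Matrix.reindexAlgEquiv K K e (FreeAlgebra.lift K Y f) := by
  have h : FreeAlgebra.lift K (fun i => Matrix.reindexAlgEquiv K K e (Y i)) =
      ((Matrix.reindexAlgEquiv K K e : Matrix ι ι K ≃ₐ[K] Matrix κ κ K) :
        Matrix ι ι K →ₐ[K] Matrix κ κ K).comp (FreeAlgebra.lift K Y) := by
    apply FreeAlgebra.hom_ext
    funext i
    simp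
  rw [h]
  rfl

lemma const_up {m : ℕ} (e : Fin 1 ⊕ Fin m ≃ Fin (m + 1)) (f : FreeAlgebra K σ) (c : K)
    (h : ∀ (A : σ → Matrix (Fin 1) (Fin 1) K) (A' : σ → Matrix (Fin m) (Fin m) K)
      (B : σ → Matrix (Fin 1) (Fin m) K),
      FreeAlgebra.lift K (fun i => Matrix.fromBlocks (A i) (B i) 0 (A' i)) f =
        Matrix.scalar (Fin 1 ⊕ Fin m) c)
    (X : σ → Matrix (Fin (m + 1)) (Fin (m + 1)) K)
    (hX : ∀ i (k : Fin m) (u : Fin 1), X i (e (Sum.inr k)) (e (Sum.inl u)) = 0) :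
    FreeAlgebra.lift K X f = algebraMap K _ c := by
  set Y : σ → Matrix (Fin 1 ⊕ Fin m) (Fin 1 ⊕ Fin m) K := fun i =>
    Matrix.reindexAlgEquiv K K e.symm (X i) with hY
  have h1 : ∀ i, Y i = Matrix.fromBlocks (Y i).toBlocks₁₁ (Y i).toBlocks₁₂ 0 (Y i).toBlocks₂₂ := by
    intro i
    conv_lhs => rw [← Matrix.fromBlocks_toBlocks (Y i)]
    congr 1
    ext k u
    exact hX i k u
  have h2 : X = fun i => Matrix.reindexAlgEquiv K K e (Y i) := by
    funext i
    ext a b
    simp [hY]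
  rw [h2, lift_reindex, show Y = fun i => Matrix.fromBlocks (Y i).toBlocks₁₁ (Y i).toBlocks₁₂ 0
    (Y i).toBlocks₂₂ from funext h1, h]
  exact AlgEquiv.commutes (Matrix.reindexAlgEquiv K K e) c

lemma const_lo {m : ℕ} (e : Fin 1 ⊕ Fin m ≃ Fin (m + 1)) (f : FreeAlgebra K σ) (c : K)
    (h : ∀ (A : σ → Matrix (Fin 1) (Fin 1) K) (A' : σ → Matrix (Fin m) (Fin m) K)
      (C : σ → Matrix (Fin m) (Fin 1) K),
      FreeAlgebra.lift K (fun i => Matrix.fromBlocks (A i) 0 (C i) (A' i)) f =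
        Matrix.scalar (Fin 1 ⊕ Fin m) c)
    (X : σ → Matrix (Fin (m + 1)) (Fin (m + 1)) K)
    (hX : ∀ i (k : Fin m) (u : Fin 1), X i (e (Sum.inl u)) (e (Sum.inr k)) = 0) :
    FreeAlgebra.lift K X f = algebraMap K _ c := by
  set Y : σ → Matrix (Fin 1 ⊕ Fin m) (Fin 1 ⊕ Fin m) K := fun i =>
    Matrix.reindexAlgEquiv K K e.symm (X i) with hY
  have h1 : ∀ i, Y i = Matrix.fromBlocks (Y i).toBlocks₁₁ 0 (Y i).toBlocks₂₁ (Y i).toBlocks₂₂ := by
    intro i
    conv_lhs => rw [← Matrix.fromBlocks_toBlocks (Y i)]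
    congr 1
    ext u k
    exact hX i k u
  have h2 : X = fun i => Matrix.reindexAlgEquiv K K e (Y i) := by
    funext i
    ext a b
    simp [hY]
  rw [h2, lift_reindex, show Y = fun i => Matrix.fromBlocks (Y i).toBlocks₁₁ 0 (Y i).toBlocks₂₁
    (Y i).toBlocks₂₂ from funext h1, h]
  exact AlgEquiv.commutes (Matrix.reindexAlgEquiv K K e) c

/-- An `n`-central polynomial is constant on the upper triangular matrices. -/
theorem up_const [Infinite K] (n : ℕ) (hn : n.Prime) (hn2 : n ≠ 2) (f : FreeAlgebra K σ)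
    (hcen : IsNuCentral n n f) (X : σ → Matrix (Fin n) (Fin n) K)
    (hX : ∀ i a b, b < a → X i a b = 0) :
    FreeAlgebra.lift K X f = algebraMap K _ (coef f []) := by
  classical
  have h1 := (Pool.Agent.Results.MP_5d2531_al.BlockTriangular.result n hn hn2 f hcen).1
  have hn3 : 3 ≤ n := by have := hn.two_le; omega
  obtain ⟨m, rfl⟩ : ∃ m, n = m + 1 := ⟨n - 1, by omega⟩
  rcases h1 1 m one_pos (by omega) (by omega) with h2 | h2
  · let e : Fin 1 ⊕ Fin m ≃ Fin (m + 1) := finSumFinEquiv.trans (finCongr (Nat.add_comm 1 m))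
    refine const_up e f _ h2 X fun i k u => hX i _ _ ?_
    rw [Fin.lt_def]
    simp [e]
  · let e : Fin 1 ⊕ Fin m ≃ Fin (m + 1) := (Equiv.sumComm _ _).trans finSumFinEquiv
    refine const_lo e f _ h2 X fun i k u => hX i _ _ ?_
    rw [Fin.lt_def]
    simp [e]

theorem charpoly_eq [Infinite K] (n : ℕ) (hn : n.Prime) (hnK : (n : K) ≠ 0)
    (f : FreeAlgebra K σ) (hcen : IsNuCentral n n f) (X : σ → Matrix (Fin n) (Fin n) K) :
    ∃ c : K, (FreeAlgebra.lift K X f).charpoly = Polynomial.X ^ n - Polynomial.C c := by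
  have : NeZero n := ⟨hn.ne_zero⟩
  obtain ⟨h1, ⟨h2, X0, hX0⟩, h3⟩ := hcen
  have hfX0 : FreeAlgebra.lift K X0 f ≠ 0 := by
    intro hz
    apply hX0
    rw [map_pow, hz, zero_pow hn.ne_zero]
  have hpow : ∀ X : σ → Matrix (Fin n) (Fin n) K, ∀ Z : Matrix (Fin n) (Fin n) K,
      FreeAlgebra.lift K X (f ^ n) * Z = Z * FreeAlgebra.lift K X (f ^ n) := by
    intro X Z
    obtain ⟨c, hc⟩ := h2 X
    rw [hc]
    exact (Matrix.scalar_commute c (fun _ => Commute.all _ _) Z).eq
  have hns : ∃ X : σ → Matrix (Fin n) (Fin n) K, ∃ Z : Matrix (Fin n) (Fin n) K,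
      FreeAlgebra.lift K X f * Z ≠ Z * FreeAlgebra.lift K X f := by
    by_contra hcon
    push Not at hcon
    have h4 : IsCentral n (f ^ 1) := by
      rw [pow_one]
      exact ⟨fun X => Pool.Agent.H552R3.PC.scalar_of_comm _ (fun Y => hcon X Y), X0, hfX0⟩
    have h5 := h3 1 one_pos h4
    have h6 := hn.two_le
    omega
  exact Pool.Agent.H552R3.PC.charpoly_of_ncentral hn hnK f hpow hns X

theorem coef_nil [Infinite K] (n : ℕ) (hn : n.Prime) (hnK : (n : K) ≠ 0)
    (f : FreeAlgebra K σ) (hcen : IsNuCentral n n f) : coef f [] = 0 := by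
  have hn1 := hn.two_le
  obtain ⟨c, hc⟩ := charpoly_eq n hn hnK f hcen (fun _ => 0)
  have : NeZero n := ⟨hn.ne_zero⟩
  have h4 : (FreeAlgebra.lift K (fun _ : σ => (0 : Matrix (Fin n) (Fin n) K)) f).trace = 0 := by
    rw [Matrix.trace_eq_neg_charpoly_coeff, hc, Fintype.card_fin, Polynomial.coeff_sub,
      Polynomial.coeff_X_pow, if_neg (by omega), Polynomial.coeff_C, if_neg (by omega), sub_zero,
      neg_zero]
  rw [Pool.Agent.TH82.NC.lift_zero, lift_zero_coef, Matrix.trace] at h4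
  simp only [Matrix.diag_apply, Matrix.algebraMap_matrix_apply, if_true, Algebra.algebraMap_self,
    RingHom.id_apply, Finset.sum_const, Finset.card_univ, Fintype.card_fin, nsmul_eq_mul] at h4
  exact (mul_eq_zero.mp h4).resolve_left hnK

end Pool.Agent.R176.NC
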