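import Mathlib
import Pool.Agent.TH82.NC.Fin

/-!
Words read off from lower bidiagonal matrices with zero first and last diagonal entries.
-/

set_option autoImplicit false

namespace Pool.Agent.R176.NC

open Matrix Pool.Agent.H552R3.PC Pool.Agent.TH82.NC

variable {K : Type*} [Field K] {σ : Type*}

/-- Kill the variables `0` and `n`. -/
noncomputable def kill (K : Type*) [Field K] (n : ℕ) : MvPolynomial ℕ K →ₐ[K] MvPolynomial ℕ K :=
  MvPolynomial.aeval fun j => if j = 0 ∨ j = n then 0 else MvPolynomial.X j

theorem coeff_kill (n : ℕ) (e : ℕ →₀ ℕ) (h0 : e 0 = 0) (hn : e n = 0) (p : MvPolynomial ℕ K) :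
    MvPolynomial.coeff e (kill K n p) = MvPolynomial.coeff e p := by
  classical
  induction p using MvPolynomial.induction_on' with
  | monomial u a =>
    rw [kill, MvPolynomial.aeval_monomial]
    by_cases hu : u 0 = 0 ∧ u n = 0
    · have h1 : (u.prod fun i k => (if i = 0 ∨ i = n then (0 : MvPolynomial ℕ K) else
          MvPolynomial.X i) ^ k) = u.prod fun i k => MvPolynomial.X i ^ k := by
        refine Finset.prod_congr rfl fun i hi => ?_
        have hi' : u i ≠ 0 := Finsupp.mem_support_iff.mp hi
        beta_reduce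
        rw [if_neg]
        rintro (rfl | rfl)
        · exact hi' hu.1
        · exact hi' hu.2
      rw [h1, MvPolynomial.monomial_eq]
      rfl
    · have h1 : (u.prod fun i k => (if i = 0 ∨ i = n then (0 : MvPolynomial ℕ K) else
          MvPolynomial.X i) ^ k) = 0 := by
        rw [not_and_or] at hu
        rcases hu with hu | hu
        · exact Finset.prod_eq_zero (Finsupp.mem_support_iff.mpr hu) (by simp [hu])
        · exact Finset.prod_eq_zero (Finsupp.mem_support_iff.mpr hu) (by simp [hu])
      rw [h1, mul_zero, MvPolynomial.coeff_zero, MvPolynomial.coeff_monomial, if_neg]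
      rintro rfl
      exact hu ⟨h0, hn⟩
  | add p q hp hq => rw [map_add, MvPolynomial.coeff_add, MvPolynomial.coeff_add, hp, hq]

theorem word_zero [Infinite K] {n : ℕ} (hn : 2 ≤ n) (f : FreeAlgebra K σ)
    (h : ∀ A : σ → Matrix (Fin (n + 1)) (Fin (n + 1)) K, (∀ i a b, b < a → A i a b = 0) →
      (∀ i, A i 0 0 = A i (Fin.last n) (Fin.last n)) → FreeAlgebra.lift K A f = 0)
    (l : List σ) (hl : Stair (n - 2) l) (y z : σ) : cf f (y :: l ++ [z]) = 0 := by
  classical
  -- the path
  have hl' : ∀ k : ℕ, ∀ l : List σ, Stair k l → ∃ (x y' : ℕ → σ) (e : ℕ →₀ ℕ),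
      (∀ i, k + 1 < i → e i = 0) ∧ e 0 = 0 ∧ l ++ [z] = wd x y' e (k + 1) := by
    intro k l hl
    induction hl with
    | zero e x =>
      refine ⟨fun _ => x, fun _ => z, Finsupp.single 1 e, fun i hi => ?_, ?_, ?_⟩
      · rw [Finsupp.single_eq_of_ne (by omega)]
      · rw [Finsupp.single_eq_of_ne (by omega)]
      · rw [wd, wd, zero_add, Finsupp.single_eq_same, Finsupp.single_eq_of_ne (by omega),
          List.replicate_zero]
    | succ k e x y l h ih =>
      obtain ⟨x', y', e', h1, h0, h2⟩ := ih
      refine ⟨Function.update x' (k + 2) x, Function.update y' (k + 1) y,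
        e' + Finsupp.single (k + 2) e, fun i hi => ?_, ?_, ?_⟩
      · rw [Finsupp.add_apply, h1 i (by omega), Finsupp.single_eq_of_ne (by omega), add_zero]
      · rw [Finsupp.add_apply, h0, Finsupp.single_eq_of_ne (by omega), add_zero]
      · rw [wd, Finsupp.add_apply, h1 (k + 1 + 1) (by omega), Finsupp.single_eq_same, zero_add,
          Function.update_self, Function.update_self, List.append_assoc, List.cons_append, h2]
        congr 2
        refine wd_congr (k + 1) (fun i hi => ?_) (fun i hi => ?_) (fun i hi => ?_)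
        · rw [Function.update_of_ne (by omega)]
        · rw [Function.update_of_ne (by omega)]
        · rw [Finsupp.add_apply, Finsupp.single_eq_of_ne (by omega), add_zero]
  obtain ⟨x, y', e, h1, h0, h2⟩ := hl' _ l hl
  have hw : y :: l ++ [z] = wd x (Function.update y' (n - 1) y) e n := by
    obtain ⟨m, rfl⟩ : ∃ m, n = m + 2 := ⟨n - 2, by omega⟩
    rw [wd, h1 (m + 1 + 1) (by omega), List.replicate_zero, List.nil_append, List.cons_append, h2]
    rw [show m + 2 - 1 = m + 1 by omega, Function.update_self]
    congr 1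
    exact wd_congr _ (fun _ _ => rfl) (fun i hi => by rw [Function.update_of_ne (by omega)])
      (fun _ _ => rfl)
  have hen : e n = 0 := h1 n (by omega)
  generalize Function.update y' (n - 1) y = y'' at hw
  rw [hw]
  have h3 := lift_coeff (K := K) n x y'' (Fin.last n) e (fun i hi => h1 i (by
    rw [Fin.val_last] at hi; omega)) f
  rw [Fin.val_last] at h3
  rw [← h3, ← coeff_kill n e h0 hen]
  suffices hs : kill K n (FreeAlgebra.lift K (lbd (pt K n x) (pb K n y'')) f (Fin.last n) 0) = 0 by
    rw [hs, MvPolynomial.coeff_zero]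
  apply MvPolynomial.funext
  intro φ
  rw [map_zero]
  -- evaluation
  let φ' : ℕ → K := fun j => if j = 0 ∨ j = n then 0 else φ j
  have h4 : ∀ p : MvPolynomial ℕ K, MvPolynomial.eval φ (kill K n p) = MvPolynomial.aeval φ' p := by
    intro p
    have : (MvPolynomial.aeval φ : MvPolynomial ℕ K →ₐ[K] K).comp (kill K n) =
        MvPolynomial.aeval φ' := by
      apply MvPolynomial.algHom_ext
      intro j
      simp only [AlgHom.comp_apply, kill, MvPolynomial.aeval_X, φ']
      split_ifs <;> simp
    rw [← this]
    rfl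
  rw [h4]
  set L := lbd (pt K n x) (pb K n y'') with hL
  have h5 : MvPolynomial.aeval φ' (FreeAlgebra.lift K L f (Fin.last n) 0) =
      FreeAlgebra.lift K (fun i => (L i).map (MvPolynomial.aeval φ')) f (Fin.last n) 0 := by
    have := lift_map ((MvPolynomial.aeval φ' : MvPolynomial ℕ K →ₐ[K] K).mapMatrix) L f
    have h6 := congrFun (congrFun this (Fin.last n)) 0
    exact h6
  rw [h5]
  have hlow : ∀ i a b, a < b → (L i) a b = 0 := by
    intro i a b hab
    rw [hL, lbd, Matrix.add_apply, Matrix.diagonal_apply_ne _ hab.ne, zero_add, Matrix.sum_apply]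
    refine Finset.sum_eq_zero fun j _ => ?_
    rw [Matrix.single_apply, if_neg]
    rintro ⟨rfl, rfl⟩
    rw [Fin.lt_def] at hab
    simp only [Fin.val_succ, Fin.val_castSucc] at hab
    omega
  have hdiag : ∀ i a, (L i) a a = pt K n x i a := by
    intro i a
    rw [hL, lbd, Matrix.add_apply, Matrix.diagonal_apply_eq, Matrix.sum_apply,
      Finset.sum_eq_zero, add_zero]
    intro j _
    rw [Matrix.single_apply, if_neg]
    rintro ⟨h1, h2⟩
    have h3 := congrArg Fin.val (h1.trans h2.symm)
    simp only [Fin.val_succ, Fin.val_castSucc] at h3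
    omega
  have h7 := h (fun i => ((L i).map (MvPolynomial.aeval φ')).submatrix Fin.rev Fin.rev)
    (fun i a b hab => by
      rw [Matrix.submatrix_apply, Matrix.map_apply, hlow _ _ _ (Fin.rev_lt_rev.mpr hab), map_zero])
    (fun i => by
      rw [Matrix.submatrix_apply, Matrix.submatrix_apply, Matrix.map_apply, Matrix.map_apply,
        Fin.rev_zero, Fin.rev_last, hdiag, hdiag, pt, pt]
      split_ifs <;> simp [φ'])
  rw [← lift_submatrix_rev] at h7
  have h8 := congrFun (congrFun h7 0) (Fin.last n)
  rw [Matrix.submatrix_apply, Fin.rev_zero, Fin.rev_last] at h8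
  exact h8

end Pool.Agent.R176.NC
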